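import Pool.Agent.Helper547.OS.Defs
import Pool.Agent.Helper547.OS.P6

set_option autoImplicit false

open Pool.Agent.Helper547.OS

namespace Pool.Agent.Results.MP_5c6a50_an.Counterexample

/-- There is a two dimensional operator space `E` with `d_SK(E) = d_SK(E*) = 1` which is not completely
isometric to any space of the list in the question. -/
theorem result : ∃ (E : Type) (_ : AddCommGroup E) (_ : Module ℂ E) (N : MatNorms E),
    FiniteDimensional ℂ E ∧ 1 < Module.finrank ℂ E ∧ IsOperatorSpace E N ∧
    dSK N = 1 ∧ dSK (dualNorms N) = 1 ∧ ¬ InList N := by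
  refine ⟨ℂ × ℂ, inferInstance, inferInstance, affN, inferInstance, ?_, affN_operatorSpace, dSK_affN,
    dSK_dual_affN, not_inList⟩
  rw [Module.finrank_prod, Module.finrank_self]
  norm_num

end Pool.Agent.Results.MP_5c6a50_an.Counterexample
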